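import Mathlib

/-!
# Orbit relations modulo finite sets on `[ℕ]^ℕ` are hyperfinite on a Ramsey co-null Borel set

Let a countable group `Γ` act on `ℕ` such that the pointwise stabilizers of the finite subsets of
`ℕ` satisfy the descending chain condition (for example, with finite stabilizers of points, or
linearly on a finite-dimensional countable vector space). Consider on the space `[ℕ]^ℕ` of infinite subsets of `ℕ` the
relation that `y` is the image of `x` under an element of `Γ`, up to a finite set. This countable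
Borel equivalence relation, and every Borel equivalence relation included in it, is hyperfinite on
an invariant Ramsey co-null Borel set.
-/

set_option autoImplicit false

namespace Pool.Agent.Results.MP_d5b253_lc.ChainCondition

/-- The space `[ℕ]^ℕ` of the infinite subsets of `ℕ`, given by their characteristic functions. -/
abbrev InfSets : Type := {x : ℕ → Bool // {n | x n = true}.Infinite}

/-- The complement of `B` is Ramsey null: for every `[s, A]` there is an infinite `A' ⊆ A` with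
`[s, A'] ⊆ B`. -/
def RamseyConull (B : Set InfSets) : Prop :=
  ∀ s : Finset ℕ, ∀ A : Set ℕ, A.Infinite → (∀ a ∈ A, ∀ m ∈ s, m < a) →
    ∃ A' : Set ℕ, A' ⊆ A ∧ A'.Infinite ∧ ∀ x : InfSets,
      ((↑s : Set ℕ) ⊆ {n | x.1 n = true} ∧ {n | x.1 n = true} ⊆ (↑s : Set ℕ) ∪ A') → x ∈ B

/-- The restriction of `E` to `B` is hyperfinite: on `B` it is the union of an increasing sequence
of Borel equivalence relations with finite classes. -/
def HyperfiniteOn (E : InfSets → InfSets → Prop) (B : Set InfSets) : Prop :=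
  ∃ F : ℕ → InfSets → InfSets → Prop,
    (∀ n, Equivalence (F n)) ∧
    (∀ n, MeasurableSet {p : InfSets × InfSets | F n p.1 p.2}) ∧
    (∀ n, ∀ x : InfSets, {y : InfSets | F n x y}.Finite) ∧
    (∀ n, ∀ x y : InfSets, F n x y → F (n + 1) x y) ∧
    (∀ x ∈ B, ∀ y ∈ B, (E x y ↔ ∃ n, F n x y))

/-- The orbit equivalence relation on `[ℕ]^ℕ` of an action of `Γ` on `ℕ`: the set `y` is the image
of the set `x` under some `g`. -/
def OrbitRel (Γ : Type) [Group Γ] [MulAction Γ ℕ] (x y : InfSets) : Prop :=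
  ∃ g : Γ, ∀ n : ℕ, y.1 (g • n) = x.1 n

/-- The orbit equivalence relation modulo finite sets: the symmetric difference of the set `y` and
the image of the set `x` under some `g` is finite. -/
def AlmostOrbitRel (Γ : Type) [Group Γ] [MulAction Γ ℕ] (x y : InfSets) : Prop :=
  ∃ g : Γ, {n : ℕ | y.1 (g • n) ≠ x.1 n}.Finite

/-- The descending chain condition on pointwise stabilizers: every set `A` of natural numbers has a
finite subset `F` such that every group element which fixes `F` pointwise fixes `A` pointwise. -/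
def StabilizerChainCondition (Γ : Type) [Group Γ] [MulAction Γ ℕ] : Prop :=
  ∀ A : Set ℕ, ∃ F : Finset ℕ, (↑F : Set ℕ) ⊆ A ∧
    ∀ g : Γ, (∀ a ∈ F, g • a = a) → ∀ a ∈ A, g • a = a

section

variable {Γ : Type} [Group Γ] [MulAction Γ ℕ]

/-- The `n`-th element of `x`. -/
noncomputable def el (x : InfSets) (n : ℕ) : ℕ := Nat.nth (fun k => x.1 k = true) n

theorem el_mem (x : InfSets) (n : ℕ) : x.1 (el x n) = true := Nat.nth_mem_of_infinite x.2 n

theorem el_strictMono (x : InfSets) : StrictMono (el x) := Nat.nth_strictMono x.2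

/-! ### Measurability -/

theorem measurable_coord (k : ℕ) : Measurable (fun x : InfSets => x.1 k) :=
  (measurable_pi_apply k).comp measurable_subtype_coe

theorem measurableSet_coord (k : ℕ) : MeasurableSet {x : InfSets | x.1 k = true} :=
  (measurable_coord k) (measurableSet_singleton true)

theorem measurable_count (m : ℕ) :
    Measurable (fun x : InfSets => Nat.count (fun k => x.1 k = true) m) := by
  induction m with
  | zero => simp only [Nat.count_zero]; exact measurable_const
  | succ m ih =>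
    simp only [Nat.count_succ]
    exact ih.add (Measurable.ite (measurableSet_coord m) measurable_const measurable_const)

theorem measurable_el (n : ℕ) : Measurable (fun x : InfSets => el x n) := by
  apply measurable_to_countable'
  intro m
  have h : (fun x : InfSets => el x n) ⁻¹' {m} =
      {x : InfSets | x.1 m = true} ∩
        (fun x : InfSets => Nat.count (fun k => x.1 k = true) m) ⁻¹' {n} := by
    ext x
    simp only [Set.mem_preimage, Set.mem_singleton_iff, Set.mem_inter_iff, Set.mem_ofPred_eq]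
    constructor
    · rintro rfl
      exact ⟨el_mem x n, Nat.count_nth_of_infinite x.2 n⟩
    · rintro ⟨h1, h2⟩
      rw [← h2]
      exact Nat.nth_count h1
  rw [h]
  exact (measurableSet_coord m).inter (measurable_count m (measurableSet_singleton n))

/-! ### The invariant of a finite set -/

/-- The least possible bound for a translate of a finite set. -/
noncomputable def kap (Γ : Type) [Group Γ] [MulAction Γ ℕ] (T : Finset ℕ) : ℕ :=
  sInf {m : ℕ | ∃ g : Γ, ∀ c ∈ T, g • c ≤ m}

/-- Every element which fixes `S` pointwise fixes `c`. -/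
def Fixes (Γ : Type) [Group Γ] [MulAction Γ ℕ] (S : Finset ℕ) (c : ℕ) : Prop :=
  ∀ g : Γ, (∀ s ∈ S, g • s = s) → g • c = c

theorem kap_spec (T : Finset ℕ) : ∃ g : Γ, ∀ c ∈ T, g • c ≤ kap Γ T :=
  Nat.sInf_mem (s := {m : ℕ | ∃ g : Γ, ∀ c ∈ T, g • c ≤ m})
    ⟨T.sup id, 1, fun c hc => by rw [one_smul]; exact Finset.le_sup (f := id) hc⟩

theorem kap_image (g : Γ) (T : Finset ℕ) : kap Γ (T.image (fun c => g • c)) = kap Γ T := by
  unfold kap
  congr 1
  ext m
  simp only [Set.mem_ofPred_eq, Finset.mem_image, forall_exists_index, and_imp,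
    forall_apply_eq_imp_iff₂]
  constructor
  · rintro ⟨w, h⟩
    exact ⟨w * g, fun c hc => by rw [mul_smul]; exact h c hc⟩
  · rintro ⟨w, h⟩
    exact ⟨w * g⁻¹, fun c hc => by rw [mul_smul, inv_smul_smul]; exact h c hc⟩

theorem finite_kap_lt (S : Finset ℕ) (K : ℕ) :
    {b : ℕ | Fixes Γ S b ∧ kap Γ (insert b S) < K}.Finite := by
  classical
  -- the restrictions to `S` of the group elements which map it below `K`
  have hfin : {f : S → Fin K | ∃ g : Γ, ∀ s : S, ((f s : Fin K) : ℕ) = g • (s : ℕ)}.Finite :=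
    Set.toFinite _
  refine (hfin.biUnion (t := fun f => {b : ℕ | ∃ g : Γ, (∀ s : S, ((f s : Fin K) : ℕ) = g • (s : ℕ)) ∧
    Fixes Γ S b ∧ g • b < K}) ?_).subset ?_
  · rintro f ⟨g0, hg0⟩
    refine ((Set.finite_Iio K).image (fun m : ℕ => g0⁻¹ • m)).subset ?_
    rintro b ⟨g, hg, hb, hlt⟩
    refine ⟨g • b, hlt, ?_⟩
    have h1 : (g0⁻¹ * g) • b = b := by
      apply hb
      intro s hs
      rw [mul_smul, ← hg ⟨s, hs⟩, hg0 ⟨s, hs⟩, inv_smul_smul]
    show g0⁻¹ • g • b = b
    rw [← mul_smul]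
    exact h1
  · rintro b ⟨hb, hlt⟩
    obtain ⟨g, hg⟩ := kap_spec (Γ := Γ) (insert b S)
    have hgs : ∀ s : S, g • (s : ℕ) < K := fun s =>
      (hg _ (Finset.mem_insert_of_mem s.2)).trans_lt hlt
    simp only [Set.mem_iUnion]
    exact ⟨fun s => ⟨g • (s : ℕ), hgs s⟩, ⟨g, fun s => rfl⟩, g, fun s => rfl, hb,
      (hg _ (Finset.mem_insert_self b S)).trans_lt hlt⟩

/-- The relation which makes a set sparse. -/
def Sparse (e : Γ → ℕ) (a b : ℕ) : Prop :=
  (∀ g : Γ, e g ≤ a → g • a < g • b) ∧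
  ∀ S ∈ (Finset.range (a + 1)).powerset, Fixes Γ S b →
    a ≤ kap Γ (insert b S) ∧ ∀ g : Γ, e g ≤ a → ∀ s ∈ Finset.range (a + 1),
      g • s ≤ kap Γ (insert b S)

theorem finite_not_sparse (e : Γ → ℕ) (he : Function.Injective e) (a : ℕ) :
    {b : ℕ | ¬ Sparse e a b}.Finite := by
  have hK : {g : Γ | e g ≤ a}.Finite := (Set.finite_Iic a).preimage he.injOn
  have h1 : (⋃ g ∈ {g : Γ | e g ≤ a}, {b : ℕ | g • b ≤ g • a}).Finite :=
    hK.biUnion fun g _ => (Set.finite_Iic (g • a)).preimage (MulAction.injective g).injOn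
  have h2 : (⋃ S ∈ (Finset.range (a + 1)).powerset,
      {b : ℕ | Fixes Γ S b ∧ kap Γ (insert b S) < a}).Finite :=
    (Finset.finite_toSet _).biUnion fun S _ => finite_kap_lt S a
  have h3 : (⋃ S ∈ (Finset.range (a + 1)).powerset, ⋃ g ∈ {g : Γ | e g ≤ a},
      ⋃ s ∈ Finset.range (a + 1),
      {b : ℕ | Fixes Γ S b ∧ kap Γ (insert b S) < g • s}).Finite :=
    (Finset.finite_toSet _).biUnion fun S _ => hK.biUnion fun g _ =>
      (Finset.finite_toSet _).biUnion fun s _ => finite_kap_lt S (g • s)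
  refine (h1.union (h2.union h3)).subset ?_
  intro b hb
  by_contra hcon
  simp only [Set.mem_union, not_or, Set.mem_iUnion, not_exists] at hcon
  obtain ⟨c1, c2, c3⟩ := hcon
  apply hb
  refine ⟨fun g hg => ?_, fun S hS hF => ⟨?_, fun g hg s hs => ?_⟩⟩
  · by_contra h
    exact c1 g hg (not_lt.1 h)
  · by_contra h
    exact c2 S hS ⟨hF, not_le.1 h⟩
  · by_contra h
    exact c3 S hS g hg s hs ⟨hF, not_le.1 h⟩

theorem exists_thin (Q : ℕ → ℕ → Prop) (hQ : ∀ a, {b : ℕ | ¬ Q a b}.Finite) (A : Set ℕ)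
    (hA : A.Infinite) : ∃ A' ⊆ A, A'.Infinite ∧ ∀ a ∈ A', ∀ b ∈ A', a < b → Q a b := by
  have hN : ∀ a, ∃ N, ∀ b, N < b → Q a b := by
    intro a
    obtain ⟨N, hN⟩ := (hQ a).bddAbove
    refine ⟨N, fun b hb => ?_⟩
    by_contra h
    exact absurd (hN h) (not_le.2 hb)
  choose N hN using hN
  have hnext : ∀ c : ℕ, ∃ b ∈ A, c < b := fun c => hA.exists_gt c
  choose nx hnxA hnx using hnext
  let M : ℕ → ℕ := fun a => (Finset.range (a + 1)).sup N + a
  have hM : ∀ a a', a' ≤ a → N a' ≤ M a := by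
    intro a a' h
    have h1 : N a' ≤ (Finset.range (a + 1)).sup N := Finset.le_sup (by simp; omega)
    exact h1.trans (Nat.le_add_right _ _)
  have hMa : ∀ a, a ≤ M a := fun a => by simp only [M]; omega
  let t : ℕ → ℕ := fun n => Nat.rec (nx 0) (fun _ p => nx (M p)) n
  have ht : ∀ n, M (t n) < t (n + 1) := fun n => hnx (M (t n))
  have htmono : StrictMono t := strictMono_nat_of_lt_succ fun n => (hMa _).trans_lt (ht n)
  have htA : ∀ n, t n ∈ A := by
    intro n
    cases n with
    | zero => exact hnxA 0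
    | succ n => exact hnxA (M (t n))
  refine ⟨Set.range t, ?_, Set.infinite_range_of_injective htmono.injective, ?_⟩
  · rintro _ ⟨n, rfl⟩
    exact htA n
  · rintro _ ⟨i, rfl⟩ _ ⟨j, rfl⟩ hij
    have hlt : i < j := htmono.lt_iff_lt.1 hij
    apply hN
    calc N (t i) ≤ M (t i) := hM _ _ le_rfl
      _ < t (i + 1) := ht i
      _ ≤ t j := htmono.monotone hlt

/-! ### The co-null set -/

/-- The condition on a translate. -/
def Cond (g : Γ) (M : ℕ) (S : Finset ℕ) (c : ℕ) : Prop :=
  (∀ s ∈ S, g • s < g • c) ∧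
    (Fixes Γ S c → (∀ s ∈ S, g • s ≤ kap Γ (insert c S)) ∧ M ≤ kap Γ (insert c S))

/-- The invariant co-null set. -/
def Big (Γ : Type) [Group Γ] [MulAction Γ ℕ] : Set InfSets :=
  {x | ∀ (g : Γ) (M : ℕ), ∃ t : ℕ, ∀ (S : Finset ℕ) (c : ℕ), (∀ s ∈ S, x.1 s = true) →
    x.1 c = true → (S.Nonempty ∧ ∀ s ∈ S, t ≤ s ∧ s < c) → Cond g M S c}

theorem measurableSet_all (S : Finset ℕ) : MeasurableSet {x : InfSets | ∀ s ∈ S, x.1 s = true} := by
  have h : {x : InfSets | ∀ s ∈ S, x.1 s = true} =
      ⋂ s : ℕ, ⋂ _ : s ∈ S, {x : InfSets | x.1 s = true} := by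
    ext x
    simp
  rw [h]
  exact MeasurableSet.iInter fun s => MeasurableSet.iInter fun _ => measurableSet_coord s

theorem measurableSet_big [Countable Γ] : MeasurableSet (Big Γ) := by
  have h : Big Γ = ⋂ g : Γ, ⋂ M : ℕ, ⋃ t : ℕ, ⋂ S : Finset ℕ, ⋂ c : ℕ,
      ({x : InfSets | ∀ s ∈ S, x.1 s = true}ᶜ ∪ ({x : InfSets | x.1 c = true}ᶜ ∪
        {_x : InfSets | (S.Nonempty ∧ ∀ s ∈ S, t ≤ s ∧ s < c) → Cond g M S c})) := by
    ext x
    simp only [Big, Set.mem_ofPred_eq, Set.mem_iInter, Set.mem_iUnion, Set.mem_union,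
      Set.mem_compl_iff, ← imp_iff_not_or]
  rw [h]
  exact MeasurableSet.iInter fun g => MeasurableSet.iInter fun M => MeasurableSet.iUnion fun t =>
    MeasurableSet.iInter fun S => MeasurableSet.iInter fun c =>
      (measurableSet_all S).compl.union
        ((measurableSet_coord c).compl.union (MeasurableSet.const _))

theorem conull_big (e : Γ → ℕ) (he : Function.Injective e) : RamseyConull (Big Γ) := by
  intro s A hA hsA
  obtain ⟨A', hA'A, hA'inf, hA'⟩ := exists_thin (Sparse e) (finite_not_sparse e he) A hA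
  refine ⟨A', hA'A, hA'inf, ?_⟩
  rintro x ⟨-, hx⟩ g M
  obtain ⟨a, haA', ha⟩ := hA'inf.exists_gt (max (e g) M)
  have hmem : ∀ k, x.1 k = true → a ≤ k → k ∈ A' := by
    intro k hk hak
    rcases hx hk with h | h
    · exact absurd (hsA a (hA'A haA') k h) (not_lt.2 hak)
    · exact h
  refine ⟨a, fun S c hS hc hSt => ⟨fun b hb => ?_, fun hF => ?_⟩⟩
  · have h := hA' b (hmem b (hS b hb) (hSt.2 b hb).1) c
      (hmem c hc ((hSt.2 b hb).1.trans (hSt.2 b hb).2.le)) (hSt.2 b hb).2
    exact h.1 g (((le_max_left _ _).trans ha.le).trans (hSt.2 b hb).1)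
  · obtain ⟨b, hb, hbmax⟩ : ∃ b ∈ S, ∀ s ∈ S, s ≤ b :=
      ⟨S.max' hSt.1, S.max'_mem hSt.1, fun s hs => S.le_max' s hs⟩
    have h := hA' b (hmem b (hS b hb) (hSt.2 b hb).1) c
      (hmem c hc ((hSt.2 b hb).1.trans (hSt.2 b hb).2.le)) (hSt.2 b hb).2
    have h2 := h.2 S (Finset.mem_powerset.2 fun s hs =>
      Finset.mem_range.2 (Nat.lt_succ_of_le (hbmax s hs))) hF
    exact ⟨fun s hs => h2.2 g (((le_max_left _ _).trans ha.le).trans (hSt.2 b hb).1) s
      (Finset.mem_range.2 (Nat.lt_succ_of_le (hbmax s hs))),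
      (((le_max_right _ _).trans ha.le).trans (hSt.2 b hb).1).trans h2.1⟩

theorem exists_bound (g : Γ) (D : Set ℕ) (hD : D.Finite) (t : ℕ) :
    ∃ T : ℕ, ∀ b : ℕ, T < g • b → b ∉ D ∧ t ≤ b := by
  obtain ⟨T, hT⟩ := ((hD.union (Set.finite_Iio t)).image (fun n : ℕ => g • n)).bddAbove
  refine ⟨T, fun b hb => ⟨fun h => ?_, ?_⟩⟩
  · exact absurd (hT ⟨b, Or.inl h, rfl⟩) (not_le.2 hb)
  · by_contra h
    exact absurd (hT ⟨b, Or.inr (not_le.1 h), rfl⟩) (not_le.2 hb)

theorem fixes_image (g : Γ) (S : Finset ℕ) (c : ℕ)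
    (h : Fixes Γ (S.image (fun s => g • s)) (g • c)) : Fixes Γ S c := by
  intro w hw
  have h1 : (g * w * g⁻¹) • g • c = g • c := by
    apply h
    intro s hs
    obtain ⟨s', hs', rfl⟩ := Finset.mem_image.1 hs
    rw [mul_smul, mul_smul, inv_smul_smul, hw s' hs']
  rw [mul_smul, mul_smul, inv_smul_smul] at h1
  exact MulAction.injective g h1

theorem big_invariant (x y : InfSets) (hx : x ∈ Big Γ) (hxy : AlmostOrbitRel Γ x y) :
    y ∈ Big Γ := by
  obtain ⟨g, hg⟩ := hxy
  intro h M
  obtain ⟨t1, h1⟩ := hx g 0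
  obtain ⟨t2, h2⟩ := hx (h * g) M
  obtain ⟨T, hT⟩ := exists_bound g _ hg (max t1 t2)
  refine ⟨T + 1, fun S' c' hS' hc' hSt => ?_⟩
  obtain ⟨c, rfl⟩ : ∃ c : ℕ, g • c = c' := ⟨g⁻¹ • c', smul_inv_smul _ _⟩
  obtain ⟨S, rfl⟩ : ∃ S : Finset ℕ, S.image (fun s => g • s) = S' := by
    refine ⟨S'.image (fun s => g⁻¹ • s), ?_⟩
    ext k
    simp only [Finset.mem_image]
    constructor
    · rintro ⟨_, ⟨a, ha, rfl⟩, rfl⟩
      rwa [smul_inv_smul]
    · intro hk
      exact ⟨g⁻¹ • k, ⟨k, hk, rfl⟩, smul_inv_smul _ _⟩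
  have hy : ∀ b : ℕ, T + 1 ≤ g • b → y.1 (g • b) = true → x.1 b = true ∧ max t1 t2 ≤ b := by
    intro b hb hyb
    have h3 := hT b hb
    refine ⟨?_, h3.2⟩
    have := h3.1
    simp only [Set.mem_ofPred_eq, not_not] at this
    rw [← this]
    exact hyb
  have hSne : S.Nonempty := by
    obtain ⟨s, hs⟩ := hSt.1
    obtain ⟨s', hs', -⟩ := Finset.mem_image.1 hs
    exact ⟨s', hs'⟩
  have hS : ∀ s ∈ S, (x.1 s = true ∧ max t1 t2 ≤ s) ∧ T + 1 ≤ g • s ∧ g • s < g • c := by
    intro s hs
    have h3 := hSt.2 (g • s) (Finset.mem_image.2 ⟨s, hs, rfl⟩)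
    exact ⟨hy s h3.1 (hS' _ (Finset.mem_image.2 ⟨s, hs, rfl⟩)), h3⟩
  have hc : x.1 c = true ∧ max t1 t2 ≤ c := by
    obtain ⟨s, hs⟩ := hSne
    exact hy c ((hS s hs).2.1.trans (hS s hs).2.2.le) hc'
  have hlt : ∀ s ∈ S, s < c := by
    intro b hb
    rcases lt_trichotomy b c with h3 | h3 | h3
    · exact h3
    · have := (hS b hb).2.2
      rw [h3] at this
      exact absurd this (lt_irrefl _)
    · have h4 := (h1 {c} b (by simpa using hc.1) (hS b hb).1.1
        ⟨Finset.singleton_nonempty c, by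
          simpa using ⟨(le_max_left _ _).trans hc.2, h3⟩⟩).1 c (Finset.mem_singleton_self c)
      exact absurd ((hS b hb).2.2.trans h4) (lt_irrefl _)
  have h5 := h2 S c (fun s hs => (hS s hs).1.1) hc.1
    ⟨hSne, fun s hs => ⟨(le_max_right _ _).trans (hS s hs).1.2, hlt s hs⟩⟩
  have hins : insert (g • c) (S.image (fun s => g • s)) =
      (insert c S).image (fun s => g • s) := by
    rw [Finset.image_insert]
  refine ⟨?_, fun hF => ?_⟩
  · intro s hs
    obtain ⟨s', hs', rfl⟩ := Finset.mem_image.1 hs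
    rw [← mul_smul, ← mul_smul]
    exact h5.1 s' hs'
  · have h6 := h5.2 (fixes_image g S c hF)
    rw [hins, kap_image]
    refine ⟨?_, h6.2⟩
    intro s hs
    obtain ⟨s', hs', rfl⟩ := Finset.mem_image.1 hs
    rw [← mul_smul]
    exact h6.1 s' hs'

theorem el_tail (y : InfSets) (f : ℕ → ℕ) (hf : StrictMono f) (hmem : ∀ k, y.1 (f k) = true)
    (hsurj : ∀ m, y.1 m = true → f 0 ≤ m → ∃ k, f k = m) : ∃ j, ∀ k, el y (j + k) = f k := by
  refine ⟨Nat.count (fun k => y.1 k = true) (f 0), fun k => ?_⟩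
  have h0 : el y (Nat.count (fun k => y.1 k = true) (f 0)) = f 0 := Nat.nth_count (hmem 0)
  generalize Nat.count (fun k => y.1 k = true) (f 0) = j at h0
  induction k with
  | zero => exact h0
  | succ k ih =>
    apply le_antisymm
    · have h1 : y.1 (f (k + 1)) = true := hmem (k + 1)
      have h2 : el y (Nat.count (fun k => y.1 k = true) (f (k + 1))) = f (k + 1) :=
        Nat.nth_count h1
      rw [← h2]
      apply (el_strictMono y).monotone
      have h3 : el y (j + k) < el y (Nat.count (fun k => y.1 k = true) (f (k + 1))) := by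
        rw [ih, h2]
        exact hf (Nat.lt_succ_self k)
      exact (el_strictMono y).lt_iff_lt.1 h3
    · obtain ⟨l, hl⟩ := hsurj (el y (j + (k + 1))) (el_mem _ _) (by
        rw [← h0]
        exact (el_strictMono y).monotone (by omega))
      rw [← hl]
      apply hf.monotone
      have h3 : f k < f l := by
        rw [hl, ← ih]
        exact el_strictMono y (by omega)
      exact hf.lt_iff_lt.1 h3

theorem exists_align (x y : InfSets) (hx : x ∈ Big Γ) (g : Γ)
    (hg : {n : ℕ | y.1 (g • n) ≠ x.1 n}.Finite) :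
    ∃ i j : ℕ, ∀ k, el y (j + k) = g • el x (i + k) := by
  obtain ⟨t, ht⟩ := hx g 0
  obtain ⟨T, hT⟩ := exists_bound g _ hg t
  have hinf : {i : ℕ | g • el x i ≤ T}.Finite :=
    (Set.finite_Iic T).preimage
      (((MulAction.injective g).comp (el_strictMono x).injective).injOn)
  obtain ⟨i0, hi0⟩ := hinf.bddAbove
  have hi : ∀ k, T < g • el x (i0 + 1 + k) := by
    intro k
    by_contra h
    have := hi0 (show i0 + 1 + k ∈ {i : ℕ | g • el x i ≤ T} from not_lt.1 h)
    omega
  have hinx : ∀ b, T < g • b → (y.1 (g • b) = true ↔ x.1 b = true) := by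
    intro b hb
    have := (hT b hb).1
    simp only [Set.mem_ofPred_eq, not_not] at this
    rw [this]
  have hmono : ∀ b c, x.1 b = true → x.1 c = true → T < g • b → b < c → g • b < g • c :=
    fun b c hb hc hTb hbc => (ht {b} c (by simpa using hb) hc
      ⟨Finset.singleton_nonempty b, by simpa using ⟨(hT b hTb).2, hbc⟩⟩).1 b
      (Finset.mem_singleton_self b)
  obtain ⟨j, hj⟩ := el_tail y (fun k => g • el x (i0 + 1 + k))
    (strictMono_nat_of_lt_succ fun k => hmono _ _ (el_mem _ _) (el_mem _ _) (hi k)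
      (el_strictMono x (by omega)))
    (fun k => (hinx _ (hi k)).2 (el_mem _ _))
    (by
      intro m hm hfm
      obtain ⟨b, rfl⟩ : ∃ b : ℕ, g • b = m := ⟨g⁻¹ • m, smul_inv_smul _ _⟩
      have hTb : T < g • b := lt_of_lt_of_le (hi 0) hfm
      have hxb : x.1 b = true := (hinx b hTb).1 hm
      have hl : el x (Nat.count (fun k => x.1 k = true) b) = b := Nat.nth_count hxb
      generalize Nat.count (fun k => x.1 k = true) b = l at hl
      have hle : i0 + 1 ≤ l := by
        by_contra hcon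
        have h1 : el x l < el x (i0 + 1 + 0) := el_strictMono x (by omega)
        have h2 : g • el x l < g • el x (i0 + 1 + 0) :=
          hmono _ _ (el_mem _ _) (el_mem _ _) (by rw [hl]; exact hTb) h1
        rw [hl] at h2
        exact absurd (lt_of_lt_of_le h2 hfm) (lt_irrefl _)
      refine ⟨l - (i0 + 1), ?_⟩
      show g • el x (i0 + 1 + (l - (i0 + 1))) = g • b
      rw [show i0 + 1 + (l - (i0 + 1)) = l by omega, hl])
  exact ⟨i0 + 1, j, hj⟩

/-! ### The finite relations -/

/-- The block of `x` which starts at the index `i`. -/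
noncomputable def blk (x : InfSets) (i m : ℕ) : Finset ℕ :=
  (Finset.range (m + 1)).image (fun k => el x (i + k))

/-- The elements which fix the block fix all later elements of `x`. -/
def Closed (Γ : Type) [Group Γ] [MulAction Γ ℕ] (x : InfSets) (i m : ℕ) : Prop :=
  ∀ g : Γ, (∀ k, k ≤ m → g • el x (i + k) = el x (i + k)) → ∀ k, g • el x (i + k) = el x (i + k)

/-- The block is the least closed one. -/
def MinClosed (Γ : Type) [Group Γ] [MulAction Γ ℕ] (x : InfSets) (i m : ℕ) : Prop :=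
  Closed Γ x i m ∧ ∀ m' < m, ¬ Closed Γ x i m'

theorem minClosed_unique (x : InfSets) (i m m' : ℕ) (h : MinClosed Γ x i m)
    (h' : MinClosed Γ x i m') : m = m' := by
  rcases lt_trichotomy m m' with h1 | h1 | h1
  · exact absurd h.1 (h'.2 m h1)
  · exact h1
  · exact absurd h'.1 (h.2 m' h1)

theorem exists_minClosed (hΓ : StabilizerChainCondition Γ) (x : InfSets) (i : ℕ) :
    ∃ m, MinClosed Γ x i m := by
  classical
  have hex : ∃ m, Closed Γ x i m := by
    obtain ⟨F, hF, hF'⟩ := hΓ (Set.range fun k => el x (i + k))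
    have hk : ∀ a ∈ F, ∃ k, el x (i + k) = a := fun a ha => hF ha
    choose! f hf using hk
    refine ⟨F.sup f, fun g hg k => hF' g (fun a ha => ?_) _ ⟨k, rfl⟩⟩
    rw [← hf a ha]
    exact hg (f a) (Finset.le_sup ha)
  exact ⟨Nat.find hex, Nat.find_spec hex, fun m' hm' => Nat.find_min hex hm'⟩

theorem blk_succ (x : InfSets) (i m : ℕ) :
    blk x i (m + 1) = insert (el x (i + (m + 1))) (blk x i m) := by
  rw [blk, blk, Finset.range_add_one, Finset.image_insert]

theorem blk_align (x y : InfSets) (g : Γ) (i j : ℕ) (h : ∀ k, el y (j + k) = g • el x (i + k))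
    (m : ℕ) : blk y j m = (blk x i m).image (fun c => g • c) := by
  rw [blk, blk, Finset.image_image]
  exact Finset.image_congr fun k _ => h k

theorem closed_align (x y : InfSets) (g : Γ) (i j : ℕ) (h : ∀ k, el y (j + k) = g • el x (i + k))
    (m : ℕ) (hc : Closed Γ x i m) : Closed Γ y j m := by
  intro w hw k
  have h1 : ∀ k, (g⁻¹ * w * g) • el x (i + k) = el x (i + k) := by
    apply hc
    intro k hk
    have := hw k hk
    rw [h] at this
    rw [mul_smul, mul_smul, this, inv_smul_smul]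
  have h2 := h1 k
  rw [mul_smul, mul_smul, inv_smul_eq_iff] at h2
  rw [h]
  exact h2

theorem align_symm (x y : InfSets) (g : Γ) (i j : ℕ) (h : ∀ k, el y (j + k) = g • el x (i + k)) :
    ∀ k, el x (i + k) = g⁻¹ • el y (j + k) := fun k => by rw [h, inv_smul_smul]

theorem minClosed_align (x y : InfSets) (g : Γ) (i j : ℕ)
    (h : ∀ k, el y (j + k) = g • el x (i + k)) (m : ℕ) (hc : MinClosed Γ x i m) :
    MinClosed Γ y j m :=
  ⟨closed_align x y g i j h m hc.1, fun m' hm' hc' =>
    hc.2 m' hm' (closed_align y x g⁻¹ j i (align_symm x y g i j h) m' hc')⟩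

/-- The first block with invariant at least `N`. -/
def IsFirst (Γ : Type) [Group Γ] [MulAction Γ ℕ] (N : ℕ) (x : InfSets) (i m : ℕ) : Prop :=
  MinClosed Γ x i m ∧ N ≤ kap Γ (blk x i (m + 1)) ∧
    ∀ i' < i, ∀ m', MinClosed Γ x i' m' → kap Γ (blk x i' (m' + 1)) < N

theorem isFirst_unique (N : ℕ) (x : InfSets) (i i' m m' : ℕ) (h : IsFirst Γ N x i m)
    (h' : IsFirst Γ N x i' m') : i = i' ∧ m = m' := by
  have hi : i = i' := by
    rcases lt_trichotomy i i' with h1 | h1 | h1
    · exact absurd (h'.2.2 i h1 m h.1) (not_lt.2 h.2.1)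
    · exact h1
    · exact absurd (h.2.2 i' h1 m' h'.1) (not_lt.2 h'.2.1)
  subst hi
  exact ⟨rfl, minClosed_unique x i m m' h.1 h'.1⟩

/-- The finite relations. -/
def Fin1 (Γ : Type) [Group Γ] [MulAction Γ ℕ] (N : ℕ) (x y : InfSets) : Prop :=
  x = y ∨ ∃ (g : Γ) (i j m : ℕ), IsFirst Γ N x i m ∧ IsFirst Γ N y j m ∧
    (∀ k, el y (j + k) = g • el x (i + k)) ∧
    el x (i + m) ≤ kap Γ (blk x i (m + 1)) ∧ el y (j + m) ≤ kap Γ (blk y j (m + 1))

theorem fin1_equivalence (N : ℕ) : Equivalence (Fin1 Γ N) where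
  refl x := Or.inl rfl
  symm := by
    rintro x y (rfl | ⟨g, i, j, m, h1, h2, h3, h4, h5⟩)
    · exact Or.inl rfl
    · exact Or.inr ⟨g⁻¹, j, i, m, h2, h1, align_symm x y g i j h3, h5, h4⟩
  trans := by
    rintro x y z (rfl | ⟨g, i, j, m, h1, h2, h3, h4, h5⟩)
      (rfl | ⟨h, j', l, m', k1, k2, k3, k4, k5⟩)
    · exact Or.inl rfl
    · exact Or.inr ⟨h, j', l, m', k1, k2, k3, k4, k5⟩
    · exact Or.inr ⟨g, i, j, m, h1, h2, h3, h4, h5⟩
    · obtain ⟨rfl, rfl⟩ := isFirst_unique N y j j' m m' h2 k1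
      exact Or.inr ⟨h * g, i, l, m, h1, k2, fun k => by rw [k3, h3, mul_smul], h4, k5⟩

theorem el_eq_of_agree (y z : InfSets) (K : ℕ) (h : ∀ m, m ≤ K → (y.1 m = true ↔ z.1 m = true))
    (n : ℕ) (hn : el y n ≤ K) : el z n = el y n := by
  have h0 : Nat.count (fun k => y.1 k = true) (el y n) = n := Nat.count_nth_of_infinite y.2 n
  have h1 : Nat.count (fun k => z.1 k = true) (el y n) = n := by
    rw [Nat.count_eq_card_filter_range] at h0 ⊢
    rw [← h0]
    congr 1
    ext k
    simp only [Finset.mem_filter, Finset.mem_range]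
    constructor
    · rintro ⟨hk, hk'⟩
      have hk2 : k < el y n := by
        rwa [h0] at hk
      refine ⟨hk2, (h k (hk2.le.trans hn)).2 hk'⟩
    · rintro ⟨hk, hk'⟩
      rw [h0]
      exact ⟨hk, (h k (hk.le.trans hn)).1 hk'⟩
  have h2 : el z (Nat.count (fun k => z.1 k = true) (el y n)) = el y n :=
    Nat.nth_count ((h _ hn).1 (el_mem y n))
  rw [h1] at h2
  exact h2

theorem ext_el (y z : InfSets) (h : ∀ n, el y n = el z n) : y = z := by
  apply Subtype.ext
  funext m
  rw [Bool.eq_iff_iff]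
  constructor
  · intro hm
    have h1 : el y (Nat.count (fun k => y.1 k = true) m) = m := Nat.nth_count hm
    rw [h] at h1
    rw [← h1]
    exact el_mem _ _
  · intro hm
    have h1 : el z (Nat.count (fun k => z.1 k = true) m) = m := Nat.nth_count hm
    rw [← h] at h1
    rw [← h1]
    exact el_mem _ _

theorem fin1_finite (N : ℕ) (x : InfSets) : {y : InfSets | Fin1 Γ N x y}.Finite := by
  by_cases hex : ∃ i m, IsFirst Γ N x i m
  · obtain ⟨i, m, hi⟩ := hex
    obtain ⟨K, hK⟩ : ∃ K, K = kap Γ (blk x i (m + 1)) := ⟨_, rfl⟩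
    have hfin : ∀ (j : ℕ) (t : Finset ℕ),
        {y : InfSets | (Finset.range (K + 1)).filter (fun k => y.1 k = true) = t ∧
          el y (j + m) ≤ K ∧ ∃ g : Γ, ∀ k, el y (j + k) = g • el x (i + k)}.Finite := by
      intro j t
      apply Set.Subsingleton.finite
      rintro y ⟨hy1, hy2, g, hg⟩ z ⟨hz1, hz2, h, hh⟩
      have hag : ∀ k, k ≤ K → (y.1 k = true ↔ z.1 k = true) := by
        intro k hk
        have h1 : k ∈ (Finset.range (K + 1)).filter (fun k => y.1 k = true) ↔
            k ∈ (Finset.range (K + 1)).filter (fun k => z.1 k = true) := by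
          rw [hy1, hz1]
        simpa [Nat.lt_succ_of_le hk] using h1
      have hlow : ∀ n, n ≤ j + m → el z n = el y n := fun n hn =>
        el_eq_of_agree y z K hag n (((el_strictMono y).monotone hn).trans hy2)
      have hfix : ∀ k, (h⁻¹ * g) • el x (i + k) = el x (i + k) := by
        apply hi.1.1
        intro k hk
        rw [mul_smul, ← hg, ← hlow (j + k) (by omega), hh, inv_smul_smul]
      apply ext_el
      intro n
      rcases le_or_gt n (j + m) with hn | hn
      · exact (hlow n hn).symm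
      · obtain ⟨k, rfl⟩ : ∃ k, n = j + k := ⟨n - j, by omega⟩
        have h1 := hfix k
        rw [mul_smul, inv_smul_eq_iff] at h1
        rw [hg, hh, h1]
    refine ((Set.finite_singleton x).union
      ((Set.finite_Iic K).biUnion
      (t := fun j => ⋃ t ∈ (Finset.range (K + 1)).powerset,
        {y : InfSets | (Finset.range (K + 1)).filter (fun k => y.1 k = true) = t ∧
          el y (j + m) ≤ K ∧ ∃ g : Γ, ∀ k, el y (j + k) = g • el x (i + k)})
      fun j _ => (Finset.finite_toSet (Finset.range (K + 1)).powerset).biUnion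
        fun t _ => hfin j t)).subset ?_
    rintro y (rfl | ⟨g, i', j, m', h1, h2, h3, h4, h5⟩)
    · exact Or.inl rfl
    · obtain ⟨rfl, rfl⟩ := isFirst_unique N x i i' m m' hi h1
      refine Or.inr ?_
      rw [blk_align x y g i j h3, kap_image, ← hK] at h5
      have hj : j ≤ K := ((el_strictMono y).le_apply.trans
        ((el_strictMono y).monotone (Nat.le_add_right j m))).trans h5
      simp only [Set.mem_iUnion]
      exact ⟨j, hj, (Finset.range (K + 1)).filter (fun k => y.1 k = true), by simp, rfl, h5, g, h3⟩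
  · refine (Set.finite_singleton x).subset ?_
    rintro y (rfl | ⟨g, i, j, m, h1, -⟩)
    · exact rfl
    · exact absurd ⟨i, m, h1⟩ hex

theorem measurableSet_diag : MeasurableSet {p : InfSets × InfSets | p.1 = p.2} := by
  have h : {p : InfSets × InfSets | p.1 = p.2} =
      ⋂ k : ℕ, (fun p : InfSets × InfSets => (p.1.1 k, p.2.1 k)) ⁻¹'
        {q : Bool × Bool | q.1 = q.2} := by
    ext p
    simp only [Set.mem_ofPred_eq, Set.mem_iInter, Set.mem_preimage]
    constructor
    · intro h k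
      rw [h]
    · intro h
      exact Subtype.ext (funext h)
  rw [h]
  refine MeasurableSet.iInter fun k => ?_
  exact (((measurable_coord k).comp measurable_fst).prodMk
    ((measurable_coord k).comp measurable_snd)) MeasurableSet.of_discrete

theorem measurableSet_blk (P : Finset ℕ → Prop) (i m : ℕ) :
    MeasurableSet {x : InfSets | P (blk x i m)} := by
  induction m generalizing P with
  | zero =>
    have h : {x : InfSets | P (blk x i 0)} = (fun x : InfSets => el x i) ⁻¹' {a : ℕ | P {a}} := by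
      ext x
      simp [blk]
    rw [h]
    exact (measurable_el i) MeasurableSet.of_discrete
  | succ m ih =>
    have h : {x : InfSets | P (blk x i (m + 1))} =
        ⋃ a : ℕ, (((fun x : InfSets => el x (i + (m + 1))) ⁻¹' {a}) ∩
          {x : InfSets | P (insert a (blk x i m))}) := by
      ext x
      simp only [Set.mem_ofPred_eq, Set.mem_iUnion, Set.mem_inter_iff, Set.mem_preimage,
        Set.mem_singleton_iff, blk_succ]
      constructor
      · intro hP
        exact ⟨_, rfl, hP⟩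
      · rintro ⟨a, rfl, hP⟩
        exact hP
    rw [h]
    exact MeasurableSet.iUnion fun a =>
      ((measurable_el (i + (m + 1))) (measurableSet_singleton a)).inter
        (ih fun T => P (insert a T))

theorem measurableSet_closed [Countable Γ] (i m : ℕ) :
    MeasurableSet {x : InfSets | Closed Γ x i m} := by
  have h : {x : InfSets | Closed Γ x i m} = ⋂ g : Γ,
      ((⋂ k : ℕ, ⋂ _ : k ≤ m, ((fun x : InfSets => el x (i + k)) ⁻¹' {a : ℕ | g • a = a}))ᶜ ∪
      ⋂ k : ℕ, ((fun x : InfSets => el x (i + k)) ⁻¹' {a : ℕ | g • a = a})) := by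
    ext x
    simp only [Closed, Set.mem_ofPred_eq, Set.mem_iInter, Set.mem_union, Set.mem_compl_iff,
      Set.mem_preimage, ← imp_iff_not_or]
  rw [h]
  exact MeasurableSet.iInter fun g => (MeasurableSet.iInter fun k => MeasurableSet.iInter fun _ =>
    (measurable_el (i + k)) MeasurableSet.of_discrete).compl.union
    (MeasurableSet.iInter fun k => (measurable_el (i + k)) MeasurableSet.of_discrete)

theorem measurableSet_minClosed [Countable Γ] (i m : ℕ) :
    MeasurableSet {x : InfSets | MinClosed Γ x i m} := by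
  have h : {x : InfSets | MinClosed Γ x i m} = {x : InfSets | Closed Γ x i m} ∩
      ⋂ m' : ℕ, ⋂ _ : m' < m, {x : InfSets | Closed Γ x i m'}ᶜ := by
    ext x
    simp [MinClosed]
  rw [h]
  exact (measurableSet_closed i m).inter (MeasurableSet.iInter fun m' =>
    MeasurableSet.iInter fun _ => (measurableSet_closed i m').compl)

theorem measurableSet_isFirst [Countable Γ] (N i m : ℕ) :
    MeasurableSet {x : InfSets | IsFirst Γ N x i m} := by
  have h : {x : InfSets | IsFirst Γ N x i m} = {x : InfSets | MinClosed Γ x i m} ∩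
      ({x : InfSets | N ≤ kap Γ (blk x i (m + 1))} ∩
      ⋂ i' : ℕ, ⋂ _ : i' < i, ⋂ m' : ℕ, ({x : InfSets | MinClosed Γ x i' m'}ᶜ ∪
        {x : InfSets | kap Γ (blk x i' (m' + 1)) < N})) := by
    ext x
    simp only [IsFirst, Set.mem_ofPred_eq, Set.mem_iInter, Set.mem_union, Set.mem_compl_iff,
      Set.mem_inter_iff, ← imp_iff_not_or]
  rw [h]
  exact (measurableSet_minClosed i m).inter
    ((measurableSet_blk (fun T => N ≤ kap Γ T) i (m + 1)).inter
    (MeasurableSet.iInter fun i' => MeasurableSet.iInter fun _ => MeasurableSet.iInter fun m' =>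
      (measurableSet_minClosed i' m').compl.union
        (measurableSet_blk (fun T => kap Γ T < N) i' (m' + 1))))

theorem measurableSet_le_kap (i m : ℕ) :
    MeasurableSet {x : InfSets | el x (i + m) ≤ kap Γ (blk x i (m + 1))} := by
  have h : {x : InfSets | el x (i + m) ≤ kap Γ (blk x i (m + 1))} =
      ⋃ a : ℕ, (((fun x : InfSets => el x (i + m)) ⁻¹' {a}) ∩
        {x : InfSets | a ≤ kap Γ (blk x i (m + 1))}) := by
    ext x
    simp
  rw [h]
  exact MeasurableSet.iUnion fun a =>
    ((measurable_el (i + m)) (measurableSet_singleton a)).inter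
      (measurableSet_blk (fun T => a ≤ kap Γ T) i (m + 1))

theorem fin1_measurable [Countable Γ] (N : ℕ) :
    MeasurableSet {p : InfSets × InfSets | Fin1 Γ N p.1 p.2} := by
  have h : {p : InfSets × InfSets | Fin1 Γ N p.1 p.2} =
      {p : InfSets × InfSets | p.1 = p.2} ∪
      ⋃ g : Γ, ⋃ i : ℕ, ⋃ j : ℕ, ⋃ m : ℕ,
        ((Prod.fst ⁻¹' {x : InfSets | IsFirst Γ N x i m}) ∩
        ((Prod.snd ⁻¹' {x : InfSets | IsFirst Γ N x j m}) ∩
        ((⋂ k : ℕ, (fun p : InfSets × InfSets => (el p.1 (i + k), el p.2 (j + k))) ⁻¹'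
          {q : ℕ × ℕ | q.2 = g • q.1}) ∩
        ((Prod.fst ⁻¹' {x : InfSets | el x (i + m) ≤ kap Γ (blk x i (m + 1))}) ∩
        (Prod.snd ⁻¹' {x : InfSets | el x (j + m) ≤ kap Γ (blk x j (m + 1))}))))) := by
    ext p
    simp only [Fin1, Set.mem_ofPred_eq, Set.mem_union, Set.mem_iUnion, Set.mem_inter_iff,
      Set.mem_preimage, Set.mem_iInter]
  rw [h]
  refine measurableSet_diag.union (MeasurableSet.iUnion fun g => MeasurableSet.iUnion fun i =>
    MeasurableSet.iUnion fun j => MeasurableSet.iUnion fun m => ?_)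
  refine (measurable_fst (measurableSet_isFirst N i m)).inter
    ((measurable_snd (measurableSet_isFirst N j m)).inter
    ((MeasurableSet.iInter fun k => ?_).inter (MeasurableSet.inter ?_ ?_)))
  · exact (((measurable_el (i + k)).comp measurable_fst).prodMk
      ((measurable_el (j + k)).comp measurable_snd)) MeasurableSet.of_discrete
  · exact measurable_fst (measurableSet_le_kap i m)
  · exact measurable_snd (measurableSet_le_kap j m)

theorem exists_lt_bound (f : ℕ → ℕ) (n : ℕ) : ∃ N, ∀ i < n, f i < N := by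
  refine ⟨(Finset.range n).sup f + 1, fun i hi => ?_⟩
  have : f i ≤ (Finset.range n).sup f := Finset.le_sup (by simpa using hi)
  omega

theorem block_cond (x : InfSets) (hx : x ∈ Big Γ) (M : ℕ) : ∃ t, ∀ i m, t ≤ i → Closed Γ x i m →
    el x (i + m) ≤ kap Γ (blk x i (m + 1)) ∧ M ≤ kap Γ (blk x i (m + 1)) := by
  obtain ⟨t, ht⟩ := hx 1 M
  refine ⟨t, fun i m hi hc => ?_⟩
  have hmemS : ∀ s ∈ blk x i m, ∃ k, k ≤ m ∧ el x (i + k) = s := by
    intro s hs
    obtain ⟨k, hk, rfl⟩ := Finset.mem_image.1 hs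
    exact ⟨k, Nat.lt_succ_iff.1 (Finset.mem_range.1 hk), rfl⟩
  have hin : el x (i + m) ∈ blk x i m := Finset.mem_image.2 ⟨m, by simp, rfl⟩
  have h := ht (blk x i m) (el x (i + (m + 1)))
    (fun s hs => by obtain ⟨k, -, rfl⟩ := hmemS s hs; exact el_mem _ _) (el_mem _ _)
    ⟨⟨_, hin⟩, fun s hs => by
      obtain ⟨k, hk, rfl⟩ := hmemS s hs
      exact ⟨hi.trans (le_trans (Nat.le_add_right i k) (el_strictMono x).le_apply),
        el_strictMono x (by omega)⟩⟩
  have h2 := h.2 (fun g hg => hc g (fun k hk => hg _ (Finset.mem_image.2 ⟨k, by simp; omega, rfl⟩))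
    (m + 1))
  rw [← blk_succ] at h2
  refine ⟨?_, h2.2⟩
  have h3 := h2.1 _ hin
  rwa [one_smul] at h3

theorem eventually_fin1 (hΓ : StabilizerChainCondition Γ) (x y : InfSets) (hx : x ∈ Big Γ)
    (hy : y ∈ Big Γ) (hxy : AlmostOrbitRel Γ x y) : ∃ N0, ∀ N, N0 ≤ N → Fin1 Γ N x y := by
  obtain ⟨g, hg⟩ := hxy
  obtain ⟨i0, j0, hal⟩ := exists_align x y hx g hg
  obtain ⟨tx, htx⟩ := block_cond x hx 0
  obtain ⟨ty, hty⟩ := block_cond y hy 0
  choose mx hmx using exists_minClosed hΓ x
  choose my hmy using exists_minClosed hΓ y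
  obtain ⟨N1, hN1⟩ := exists_lt_bound (fun i => kap Γ (blk x i (mx i + 1))) (i0 + max tx ty)
  obtain ⟨N2, hN2⟩ := exists_lt_bound (fun j => kap Γ (blk y j (my j + 1))) (j0 + max tx ty)
  refine ⟨max N1 N2, fun N hN => Or.inr ?_⟩
  have hN1' : N1 ≤ N := (le_max_left _ _).trans hN
  have hN2' : N2 ≤ N := (le_max_right _ _).trans hN
  have hexi : ∃ i, N ≤ kap Γ (blk x i (mx i + 1)) := by
    obtain ⟨t, ht⟩ := block_cond x hx N
    exact ⟨t, (ht t (mx t) le_rfl (hmx t).1).2⟩
  classical
  obtain ⟨i, hi⟩ : ∃ i, IsFirst Γ N x i (mx i) := by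
    refine ⟨Nat.find hexi, hmx _, Nat.find_spec hexi, fun i' hi' m' hm' => ?_⟩
    rw [minClosed_unique x i' m' (mx i') hm' (hmx i')]
    exact not_le.1 (Nat.find_min hexi hi')
  have hile : i0 + max tx ty ≤ i := by
    by_contra hcon
    have h1 := hN1 i (by omega)
    exact absurd (hi.2.1.trans_lt (lt_of_lt_of_le h1 hN1')) (lt_irrefl _)
  obtain ⟨k, rfl⟩ : ∃ k, i = i0 + k := ⟨i - i0, by omega⟩
  have hk : max tx ty ≤ k := by omega
  have hal' : ∀ l, ∀ k', el y (j0 + l + k') = g • el x (i0 + l + k') := by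
    intro l k'
    rw [add_assoc, add_assoc]
    exact hal (l + k')
  have hkap : ∀ l m, kap Γ (blk y (j0 + l) m) = kap Γ (blk x (i0 + l) m) := by
    intro l m
    rw [blk_align x y g (i0 + l) (j0 + l) (hal' l), kap_image]
  have hmin : MinClosed Γ y (j0 + k) (mx (i0 + k)) :=
    minClosed_align x y g _ _ (hal' k) _ (hmx (i0 + k))
  refine ⟨g, i0 + k, j0 + k, mx (i0 + k), hi, ⟨hmin, ?_, ?_⟩, hal' k, ?_, ?_⟩
  · rw [hkap]
    exact hi.2.1
  · intro j' hj' m' hm'
    rcases lt_or_ge j' (j0 + max tx ty) with h | h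
    · rw [minClosed_unique y j' m' (my j') hm' (hmy j')]
      exact lt_of_lt_of_le (hN2 j' h) hN2'
    · obtain ⟨l, rfl⟩ : ∃ l, j' = j0 + l := ⟨j' - j0, by omega⟩
      rw [hkap]
      exact hi.2.2 (i0 + l) (by omega) m'
        (minClosed_align y x g⁻¹ _ _ (align_symm x y g _ _ (hal' l)) _ hm')
  · exact (htx _ _ (by have := le_max_left tx ty; omega) (hmx (i0 + k)).1).1
  · exact (hty _ _ (by have := le_max_right tx ty; omega) hmin.1).1

/-! ### The two relations -/

theorem orbitRel_equivalence : Equivalence (OrbitRel Γ) where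
  refl x := ⟨1, fun n => by rw [one_smul]⟩
  symm := by
    rintro x y ⟨g, hg⟩
    refine ⟨g⁻¹, fun n => ?_⟩
    rw [← hg, smul_inv_smul]
  trans := by
    rintro x y z ⟨g, hg⟩ ⟨h, hh⟩
    refine ⟨h * g, fun n => ?_⟩
    rw [mul_smul, hh, hg]

theorem orbitRel_measurable [Countable Γ] :
    MeasurableSet {p : InfSets × InfSets | OrbitRel Γ p.1 p.2} := by
  have h : {p : InfSets × InfSets | OrbitRel Γ p.1 p.2} =
      ⋃ g : Γ, ⋂ n : ℕ, (fun p : InfSets × InfSets => (p.1.1 n, p.2.1 (g • n))) ⁻¹'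
        {q : Bool × Bool | q.2 = q.1} := by
    ext p
    simp [OrbitRel]
  rw [h]
  refine MeasurableSet.iUnion fun g => MeasurableSet.iInter fun n => ?_
  exact (((measurable_coord n).comp measurable_fst).prodMk
    ((measurable_coord (g • n)).comp measurable_snd)) MeasurableSet.of_discrete

theorem almostOrbitRel_equivalence : Equivalence (AlmostOrbitRel Γ) where
  refl x := ⟨1, by simp⟩
  symm := by
    rintro x y ⟨g, hg⟩
    refine ⟨g⁻¹, (hg.image (fun n : ℕ => g • n)).subset ?_⟩
    intro n hn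
    refine ⟨g⁻¹ • n, ?_, smul_inv_smul g n⟩
    show y.1 (g • g⁻¹ • n) ≠ x.1 (g⁻¹ • n)
    rw [smul_inv_smul]
    exact fun h => hn h.symm
  trans := by
    rintro x y z ⟨g, hg⟩ ⟨h, hh⟩
    refine ⟨h * g, (hg.union (hh.preimage (MulAction.injective g).injOn)).subset ?_⟩
    intro n hn
    by_cases h1 : y.1 (g • n) = x.1 n
    · refine Or.inr ?_
      show z.1 (h • g • n) ≠ y.1 (g • n)
      rw [h1, ← mul_smul]
      exact hn
    · exact Or.inl h1

theorem almostOrbitRel_measurable [Countable Γ] :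
    MeasurableSet {p : InfSets × InfSets | AlmostOrbitRel Γ p.1 p.2} := by
  have h : {p : InfSets × InfSets | AlmostOrbitRel Γ p.1 p.2} =
      ⋃ g : Γ, ⋃ N : ℕ, ⋂ n : ℕ, ⋂ _ : N ≤ n,
        (fun p : InfSets × InfSets => (p.1.1 n, p.2.1 (g • n))) ⁻¹'
        {q : Bool × Bool | q.2 = q.1} := by
    ext p
    simp only [AlmostOrbitRel, Set.mem_ofPred_eq, Set.mem_iUnion, Set.mem_iInter, Set.mem_preimage]
    constructor
    · rintro ⟨g, hg⟩
      obtain ⟨N, hN⟩ := hg.bddAbove
      refine ⟨g, N + 1, fun n hn => ?_⟩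
      by_contra h
      have := hN h
      omega
    · rintro ⟨g, N, hN⟩
      refine ⟨g, (Set.finite_Iio N).subset fun n hn => ?_⟩
      by_contra h
      exact hn (hN n (not_lt.1 h))
  rw [h]
  refine MeasurableSet.iUnion fun g => MeasurableSet.iUnion fun N => MeasurableSet.iInter fun n =>
    MeasurableSet.iInter fun _ => ?_
  exact (((measurable_coord n).comp measurable_fst).prodMk
    ((measurable_coord (g • n)).comp measurable_snd)) MeasurableSet.of_discrete

theorem almost_of_orbit (x y : InfSets) (h : OrbitRel Γ x y) : AlmostOrbitRel Γ x y := by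
  obtain ⟨g, hg⟩ := h
  exact ⟨g, by simp [hg]⟩

end

/-- Finite stabilizers of points imply the chain condition. -/
theorem chain_of_finite (Γ : Type) [Group Γ] [MulAction Γ ℕ]
    (hfin : ∀ n : ℕ, {g : Γ | g • n = n}.Finite) : StabilizerChainCondition Γ := by
  classical
  intro A
  rcases Set.eq_empty_or_nonempty A with rfl | ⟨a, ha⟩
  · exact ⟨∅, by simp, fun g _ b hb => absurd hb (Set.notMem_empty b)⟩
  · have hp : ∀ g : Γ, ∃ p ∈ A, (∃ b ∈ A, g • b ≠ b) → g • p ≠ p := by
      intro g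
      by_cases h : ∃ b ∈ A, g • b ≠ b
      · obtain ⟨b, hb, hb'⟩ := h
        exact ⟨b, hb, fun _ => hb'⟩
      · exact ⟨a, ha, fun h' => absurd h' h⟩
    choose p hpA hp using hp
    refine ⟨insert a ((hfin a).toFinset.image p), ?_, fun g hg b hb => ?_⟩
    · intro c hc
      rcases Finset.mem_insert.1 (Finset.mem_coe.1 hc) with rfl | h
      · exact ha
      · obtain ⟨g, -, rfl⟩ := Finset.mem_image.1 h
        exact hpA g
    · by_contra hcon
      have h1 : g • a = a := hg a (Finset.mem_insert_self _ _)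
      have h2 : g • p g = p g := hg (p g) (Finset.mem_insert_of_mem
        (Finset.mem_image.2 ⟨g, by simpa using h1, rfl⟩))
      exact hp g ⟨b, hb, hcon⟩ h2

/-- The main part of the result. -/
theorem main (Γ : Type) [Group Γ] [Countable Γ] [MulAction Γ ℕ]
    (hΓ : StabilizerChainCondition Γ) :
    ∃ B : Set InfSets, MeasurableSet B ∧ RamseyConull B ∧
      (∀ x ∈ B, ∀ y, AlmostOrbitRel Γ x y → y ∈ B) ∧
      HyperfiniteOn (OrbitRel Γ) B ∧
      HyperfiniteOn (AlmostOrbitRel Γ) B ∧
      ∀ E : InfSets → InfSets → Prop, Equivalence E →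
        MeasurableSet {p : InfSets × InfSets | E p.1 p.2} →
        (∀ x y, E x y → AlmostOrbitRel Γ x y) → HyperfiniteOn E B := by
  obtain ⟨e, he⟩ := Countable.exists_injective_nat Γ
  have key : ∀ E : InfSets → InfSets → Prop, Equivalence E →
      MeasurableSet {p : InfSets × InfSets | E p.1 p.2} →
      (∀ x y, E x y → AlmostOrbitRel Γ x y) → HyperfiniteOn E (Big Γ) := by
    intro E hE hEm hEo
    refine ⟨fun n x y => E x y ∧ ∀ m, n ≤ m → Fin1 Γ m x y, ?_, ?_, ?_, ?_, ?_⟩
    · intro n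
      exact ⟨fun x => ⟨hE.refl x, fun m _ => (fin1_equivalence m).refl x⟩,
        fun h => ⟨hE.symm h.1, fun m hm => (fin1_equivalence m).symm (h.2 m hm)⟩,
        fun h h' => ⟨hE.trans h.1 h'.1,
          fun m hm => (fin1_equivalence m).trans (h.2 m hm) (h'.2 m hm)⟩⟩
    · intro n
      have h : {p : InfSets × InfSets | E p.1 p.2 ∧ ∀ m, n ≤ m → Fin1 Γ m p.1 p.2} =
          {p : InfSets × InfSets | E p.1 p.2} ∩
            ⋂ m : ℕ, ⋂ _ : n ≤ m, {p : InfSets × InfSets | Fin1 Γ m p.1 p.2} := by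
        ext p
        simp
      rw [h]
      exact hEm.inter (MeasurableSet.iInter fun m => MeasurableSet.iInter fun _ =>
        fin1_measurable m)
    · intro n x
      exact (fin1_finite n x).subset fun y hy => hy.2 n le_rfl
    · intro n x y h
      exact ⟨h.1, fun m hm => h.2 m (by omega)⟩
    · intro x hx y hy
      constructor
      · intro hxy
        obtain ⟨N0, hN0⟩ := eventually_fin1 hΓ x y hx hy (hEo x y hxy)
        exact ⟨N0, hxy, hN0⟩
      · rintro ⟨n, h, -⟩
        exact h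
  refine ⟨Big Γ, measurableSet_big, conull_big e he, ?_, ?_, ?_, key⟩
  · intro x hx y hxy
    exact big_invariant x y hx hxy
  · exact key _ orbitRel_equivalence orbitRel_measurable almost_of_orbit
  · exact key _ almostOrbitRel_equivalence almostOrbitRel_measurable fun x y h => h

/-- Let a countable group `Γ` act on `ℕ` with the descending chain condition on pointwise
stabilizers (which holds if the stabilizers of points are finite). There is a Borel set `B` of infinite subsets of `ℕ` which is Ramsey co-null and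
invariant under `Γ` and under finite changes such that the orbit equivalence relation of `Γ` on
infinite sets, its version modulo finite sets, and every Borel equivalence relation included in the
latter are hyperfinite on `B`. -/
theorem result :
    (∀ (Γ : Type) [Group Γ] [MulAction Γ ℕ], (∀ n : ℕ, {g : Γ | g • n = n}.Finite) →
      StabilizerChainCondition Γ) ∧
    ∀ (Γ : Type) [Group Γ] [Countable Γ] [MulAction Γ ℕ], StabilizerChainCondition Γ →
      ∃ B : Set InfSets, MeasurableSet B ∧ RamseyConull B ∧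
        (∀ x ∈ B, ∀ y, AlmostOrbitRel Γ x y → y ∈ B) ∧
        HyperfiniteOn (OrbitRel Γ) B ∧
        HyperfiniteOn (AlmostOrbitRel Γ) B ∧
        ∀ E : InfSets → InfSets → Prop, Equivalence E →
          MeasurableSet {p : InfSets × InfSets | E p.1 p.2} →
          (∀ x y, E x y → AlmostOrbitRel Γ x y) → HyperfiniteOn E B :=
  ⟨fun Γ _ _ h => chain_of_finite Γ h, fun Γ _ _ _ h => main Γ h⟩

end Pool.Agent.Results.MP_d5b253_lc.ChainCondition
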